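import Pool.Agent.K3h40.Cyc.Final

/-!
# Inscribed cyclic polytopes with `d+3` vertices of maximal volume (problem MP_7322d1_co, Q1)

For every even `d ≥ 2`, among the cyclic `d`-polytopes with `d+3` vertices, all on the unit sphere,
those of maximal volume are exactly the congruent copies of `C_d(d+3)`.
-/

namespace Pool.Agent.Results.MP_7322d1_co.CyclicMaximum

open MeasureTheory

/-- The `i`-th vertex of `C_d(d+3)`, namely
`√(2/d) (cos θ, sin θ, cos 2θ, sin 2θ, …, cos (d/2)θ, sin (d/2)θ)` with `θ = 2πi/(d+3)`. -/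
noncomputable def regVertex (d : ℕ) (i : Fin (d + 3)) : EuclideanSpace ℝ (Fin d) :=
  WithLp.toLp 2 fun j : Fin d => Real.sqrt (2 / (d : ℝ)) *
    (if j.val % 2 = 0 then Real.cos (((j.val / 2 + 1 : ℕ) : ℝ) * (2 * Real.pi * i.val / ((d : ℝ) + 3)))
      else Real.sin (((j.val / 2 + 1 : ℕ) : ℝ) * (2 * Real.pi * i.val / ((d : ℝ) + 3))))

/-- The polytope `C_d(d+3)`. -/
noncomputable def regularCyclic (d : ℕ) : Set (EuclideanSpace ℝ (Fin d)) :=
  convexHull ℝ (Set.range (regVertex d))

/-- The point `(t, t², …, t^d)` of the moment curve. -/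
noncomputable def momentPoint (d : ℕ) (t : ℝ) : EuclideanSpace ℝ (Fin d) :=
  WithLp.toLp 2 fun j : Fin d => t ^ (j.val + 1)

/-- `S` is the set of the indices of the points `p i` on a face of the convex hull of all `p i`:
some linear functional takes its maximum over all points exactly at the `p i` with `i` in `S`
(the empty face and the whole polytope are allowed). -/
def IsFace {d n : ℕ} (p : Fin n → EuclideanSpace ℝ (Fin d)) (S : Set (Fin n)) : Prop :=
  ∃ (f : EuclideanSpace ℝ (Fin d) →ₗ[ℝ] ℝ) (c : ℝ), (∀ i ∈ S, f (p i) = c) ∧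
    ∀ i, i ∉ S → f (p i) < c

/-- `P` is a cyclic `d`-polytope with exactly `n` vertices, all on the unit sphere: it is the
convex hull of `n` distinct points of the unit sphere that affinely span the space, and its faces
correspond to the faces of the convex hull of `n` distinct points of the moment curve. -/
def IsInscribedCyclic (d n : ℕ) (P : Set (EuclideanSpace ℝ (Fin d))) : Prop :=
  ∃ p : Fin n → EuclideanSpace ℝ (Fin d), Function.Injective p ∧ (∀ i, ‖p i‖ = 1) ∧
    affineSpan ℝ (Set.range p) = ⊤ ∧ P = convexHull ℝ (Set.range p) ∧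
    ∃ t : Fin n → ℝ, Function.Injective t ∧
      ∀ S : Set (Fin n), IsFace p S ↔ IsFace (fun i => momentPoint d (t i)) S

/-- `P` and `Q` are equal up to an isometry of the space. -/
def Congruent {d : ℕ} (P Q : Set (EuclideanSpace ℝ (Fin d))) : Prop :=
  ∃ φ : EuclideanSpace ℝ (Fin d) ≃ᵢ EuclideanSpace ℝ (Fin d), φ '' P = Q

/-- **Positive answer to Q1.**  For every even `d ≥ 2`, `C_d(d+3)` is a cyclic `d`-polytope with
`d+3` vertices on the unit sphere, every such polytope has volume at most that of `C_d(d+3)`, and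
equality holds exactly for the congruent copies of `C_d(d+3)`. -/
theorem result (d : ℕ) (hd : Even d) (hd2 : 2 ≤ d) :
    IsInscribedCyclic d (d + 3) (regularCyclic d) ∧
      ∀ P : Set (EuclideanSpace ℝ (Fin d)), IsInscribedCyclic d (d + 3) P →
        volume P ≤ volume (regularCyclic d) ∧
          (volume P = volume (regularCyclic d) ↔ Congruent P (regularCyclic d)) := by
  have hd0 : 0 < d := by omega
  have hfin : ∀ q : Fin (d + 3) → EuclideanSpace ℝ (Fin d),
      volume (convexHull ℝ (Set.range q)) ≠ ⊤ := fun q =>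
    ((Set.finite_range q).isCompact_convexHull ℝ).measure_lt_top.ne
  refine ⟨⟨regVertex d, K3h40.Cyc.cyc_injective hd hd0, K3h40.Cyc.norm_cyc hd hd0,
    K3h40.Cyc.cyc_span hd hd0, rfl, K3h40.Cyc.cyc_isCyc hd hd0⟩, ?_⟩
  rintro P ⟨p, -, hn, hsp, rfl, hc⟩
  obtain ⟨h1, h2⟩ := K3h40.Cyc.main_bound hd hd0 p hn hsp hc
  have hreg : regularCyclic d = convexHull ℝ (Set.range (K3h40.Cyc.cyc d)) := rfl
  rw [hreg]
  refine ⟨?_, ?_, ?_⟩
  · exact (ENNReal.toReal_le_toReal (hfin _) (hfin _)).1 h1
  · intro heq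
    have heq' : volume.real (convexHull ℝ (Set.range p))
        = volume.real (convexHull ℝ (Set.range (K3h40.Cyc.cyc d))) := by
      rw [measureReal_def, measureReal_def, heq]
    obtain ⟨φ, hφ⟩ := h2 heq'
    refine ⟨φ.toIsometryEquiv, ?_⟩
    have := φ.toLinearEquiv.toLinearMap.image_convexHull (Set.range p)
    have h3 : (φ.toIsometryEquiv : EuclideanSpace ℝ (Fin d) → EuclideanSpace ℝ (Fin d))
        '' convexHull ℝ (Set.range p) = convexHull ℝ (φ '' Set.range p) := this
    rw [h3, hφ]
  · rintro ⟨φ, hφ⟩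
    rw [← hφ]
    exact (K3h40.Cyc.vol_isometry φ _).symm

end Pool.Agent.Results.MP_7322d1_co.CyclicMaximum
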