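import Pool.Agent.K3h5.PZ.Main
import Pool.Agent.K3h5.PZ.Conv
import Pool.Agent.K3h5.PZ.Core57
import Pool.Agent.K3h83.PZ.POI
import Pool.Agent.K3h49.PZ.LIN
import Pool.Agent.K3h87.PZ.Str

/-!
# Inscribed cyclic polytopes with `d+3` vertices and Property Z (problem MP_7322d1_co, Q2)

For every even `d ≥ 2`, a cyclic `d`-polytope with `d+3` vertices, all on the unit sphere, has
Property Z if and only if it is congruent to `C_d(d+3)`.
-/

set_option autoImplicit false

namespace Pool.Agent.Results.MP_7322d1_co.PropertyZ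

open MeasureTheory

/-- The `i`-th vertex of `C_d(d+3)`, namely
`√(2/d) (cos θ, sin θ, cos 2θ, sin 2θ, …, cos (d/2)θ, sin (d/2)θ)` with `θ = 2πi/(d+3)`. -/
noncomputable def regVertex (d : ℕ) (i : Fin (d + 3)) : EuclideanSpace ℝ (Fin d) :=
  WithLp.toLp 2 fun j : Fin d => Real.sqrt (2 / (d : ℝ)) *
    (if j.val % 2 = 0 then Real.cos (((j.val / 2 + 1 : ℕ) : ℝ) * (2 * Real.pi * i.val / ((d : ℝ) + 3)))
      else Real.sin (((j.val / 2 + 1 : ℕ) : ℝ) * (2 * Real.pi * i.val / ((d : ℝ) + 3))))

/-- The polytope `C_d(d+3)`. -/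
noncomputable def regularCyclic (d : ℕ) : Set (EuclideanSpace ℝ (Fin d)) :=
  convexHull ℝ (Set.range (regVertex d))

/-- The point `(t, t², …, t^d)` of the moment curve. -/
noncomputable def momentPoint (d : ℕ) (t : ℝ) : EuclideanSpace ℝ (Fin d) :=
  WithLp.toLp 2 fun j : Fin d => t ^ (j.val + 1)

/-- `S` is the set of the indices of the points `p i` on a face of the convex hull of all `p i`:
some linear functional takes its maximum over all points exactly at the `p i` with `i` in `S`
(the empty face and the whole polytope are allowed). -/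
def IsFace {d n : ℕ} (p : Fin n → EuclideanSpace ℝ (Fin d)) (S : Set (Fin n)) : Prop :=
  ∃ (f : EuclideanSpace ℝ (Fin d) →ₗ[ℝ] ℝ) (c : ℝ), (∀ i ∈ S, f (p i) = c) ∧
    ∀ i, i ∉ S → f (p i) < c

/-- `P` is a cyclic `d`-polytope with exactly `n` vertices, all on the unit sphere: it is the
convex hull of `n` distinct points of the unit sphere that affinely span the space, and its faces
correspond to the faces of the convex hull of `n` distinct points of the moment curve. -/
def IsInscribedCyclic (d n : ℕ) (P : Set (EuclideanSpace ℝ (Fin d))) : Prop :=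
  ∃ p : Fin n → EuclideanSpace ℝ (Fin d), Function.Injective p ∧ (∀ i, ‖p i‖ = 1) ∧
    affineSpan ℝ (Set.range p) = ⊤ ∧ P = convexHull ℝ (Set.range p) ∧
    ∃ t : Fin n → ℝ, Function.Injective t ∧
      ∀ S : Set (Fin n), IsFace p S ↔ IsFace (fun i => momentPoint d (t i)) S

/-- `P` and `Q` are equal up to an isometry of the space. -/
def Congruent {d : ℕ} (P Q : Set (EuclideanSpace ℝ (Fin d))) : Prop :=
  ∃ φ : EuclideanSpace ℝ (Fin d) ≃ᵢ EuclideanSpace ℝ (Fin d), φ '' P = Q

/-- `P` has Property Z: every vertex (extreme point) `v` of `P` has a relatively open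
neighbourhood `U ∩ S^{d-1}` in the unit sphere such that replacing `v` by a point `q` of this
neighbourhood, the other vertices being kept, never increases the volume of the convex hull. -/
def HasPropertyZ {d : ℕ} (P : Set (EuclideanSpace ℝ (Fin d))) : Prop :=
  ∀ v ∈ P.extremePoints ℝ, ∃ U : Set (EuclideanSpace ℝ (Fin d)), IsOpen U ∧ v ∈ U ∧
    ∀ q ∈ U ∩ Metric.sphere 0 1,
      volume (convexHull ℝ ((P.extremePoints ℝ \ {v}) ∪ {q})) ≤ volume P

/-- **Positive answer to Q2, with the converse.**  For every even `d ≥ 2`, the polytope `C_d(d+3)`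
is a cyclic `d`-polytope with `d+3` vertices on the unit sphere, and a cyclic `d`-polytope with
`d+3` vertices on the unit sphere has Property Z if and only if it is congruent to
`C_d(d+3)`. -/
theorem result (d : ℕ) (hd : Even d) (hd2 : 2 ≤ d) :
    IsInscribedCyclic d (d + 3) (regularCyclic d) ∧
      ∀ P : Set (EuclideanSpace ℝ (Fin d)), IsInscribedCyclic d (d + 3) P →
        (HasPropertyZ P ↔ Congruent P (regularCyclic d)) := by
  have hd0 : 0 < d := by omega
  have hfin : ∀ s : Set (EuclideanSpace ℝ (Fin d)), s.Finite →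
      volume (convexHull ℝ s) ≠ ⊤ := fun s hs =>
    (hs.isCompact_convexHull ℝ).measure_lt_top.ne
  refine ⟨⟨regVertex d, K3h40.Cyc.cyc_injective hd hd0, K3h40.Cyc.norm_cyc hd hd0,
    K3h40.Cyc.cyc_span hd hd0, rfl, K3h40.Cyc.cyc_isCyc hd hd0⟩, ?_⟩
  rintro P ⟨p, hinj, hn, hsp, rfl, hc⟩
  have hreg : regularCyclic d = convexHull ℝ (Set.range (K3h40.Cyc.cyc d)) := rfl
  have hext : (convexHull ℝ (Set.range p)).extremePoints ℝ = Set.range p :=
    K3h5.PZ.extreme_eq hn
  have hfr := hfin _ (Set.finite_range p)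
  constructor
  · intro hZ
    have hZ' : ∀ i, ∀ᶠ q in nhds (p i), ‖q‖ = 1 →
        volume.real (convexHull ℝ ((Set.range p \ {p i}) ∪ {q})) ≤
          volume.real (convexHull ℝ (Set.range p)) := by
      intro i
      obtain ⟨U, hU, hiU, hq⟩ := hZ (p i) (by rw [hext]; exact ⟨i, rfl⟩)
      filter_upwards [hU.mem_nhds hiU] with q hqU hq1
      have h := hq q ⟨hqU, by rw [mem_sphere_zero_iff_norm]; exact hq1⟩
      rw [hext] at h
      exact ENNReal.toReal_mono hfr h
    have hv := K3h5.PZ.main_pz K3h64.PZ.t_VOL K3h49.PZ.t_LIN K3h87.PZ.t_STR K3h83.PZ.t_POI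
      K3h5.PZ.Core57.t_CORE hd hd0 p hn hinj hsp hc hZ'
    obtain ⟨φ, hφ⟩ := (K3h40.Cyc.main_bound hd hd0 p hn hsp hc).2 hv
    refine ⟨φ.toIsometryEquiv, ?_⟩
    have := φ.toLinearEquiv.toLinearMap.image_convexHull (Set.range p)
    have h3 : (φ.toIsometryEquiv : EuclideanSpace ℝ (Fin d) → EuclideanSpace ℝ (Fin d))
        '' convexHull ℝ (Set.range p) = convexHull ℝ (φ '' Set.range p) := this
    rw [h3, hφ, hreg]
  · rintro ⟨φ, hφ⟩
    have hv0 : volume (convexHull ℝ (Set.range p)) = volume (regularCyclic d) := by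
      rw [← hφ]
      exact (K3h40.Cyc.vol_isometry φ _).symm
    have hv : volume.real (convexHull ℝ (Set.range p)) =
        volume.real (convexHull ℝ (Set.range (K3h40.Cyc.cyc d))) := by
      rw [measureReal_def, measureReal_def, hv0, hreg]
    intro v hvP
    rw [hext] at hvP ⊢
    obtain ⟨i, rfl⟩ := hvP
    have h := K3h5.PZ.conv_pz hd hd0 p hn hinj hsp hc hv i
    obtain ⟨U, hUs, hUo, hiU⟩ := eventually_nhds_iff.1 h
    refine ⟨U, hUo, hiU, ?_⟩
    rintro q ⟨hqU, hq1⟩
    rw [mem_sphere_zero_iff_norm] at hq1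
    have h1 := hUs q hqU hq1
    exact (ENNReal.toReal_le_toReal (hfin _ (((Set.finite_range p).sdiff).union
      (Set.finite_singleton q))) hfr).1 h1

end Pool.Agent.Results.MP_7322d1_co.PropertyZ
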